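import Mathlib
import Pool.Agent.H346R3.E963.Main

set_option autoImplicit false

/-!
Erdős' problem on dissociated subsets of finite sets of reals: `f n ≥ ⌊log₂ n⌋ - O(1)`.

The proof: after passing to a set `P` of `2 ^ (3 J + 16)` positive integers, a uniformly random
dilation `t ∈ 𝕋³` sends `P` to points of the three dimensional torus which are almost pairwise
independent (the sum of the heights `b ^ (-3)` over distinct fractions `p / q` converges), so by
the second moment method, with positive probability, every one of `3 J` windows (three coordinate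
directions at each of `J` doubling scales) contains the image of an element of `P`; such elements
form a dissociated set.
-/

namespace Pool.Agent.Results.MP_2d6ea7_co.ConstantLoss

/-- `f n` is the largest `k` such that every set of `n` real numbers has a dissociated subset with
at least `k` elements. -/
noncomputable def f (n : ℕ) : ℕ :=
  sSup {k : ℕ | ∀ A : Finset ℝ, A.card = n → ∃ B ⊆ A, k ≤ B.card ∧ AddDissociated (B : Set ℝ)}

theorem le_f {n k : ℕ}
    (h : ∀ A : Finset ℝ, A.card = n → ∃ B ⊆ A, k ≤ B.card ∧ AddDissociated (B : Set ℝ)) :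
    k ≤ f n := by
  have hmem : k ∈ {k : ℕ | ∀ A : Finset ℝ, A.card = n →
      ∃ B ⊆ A, k ≤ B.card ∧ AddDissociated (B : Set ℝ)} := h
  refine le_csSup ⟨n, ?_⟩ hmem
  intro m hm
  obtain ⟨A, hA⟩ := Infinite.exists_subset_card_eq ℝ n
  obtain ⟨B, hB, hmB, _⟩ := hm A hA
  exact hmB.trans ((Finset.card_le_card hB).trans hA.le)

/-- (1) Every finite set `A` of reals has a dissociated subset `B` with
`|B| ≥ ⌊log₂ |A|⌋ - 19`.  (2) The same in terms of `f`: `f n ≥ ⌊log₂ n⌋ - 19` for every `n`. -/
theorem result :
    (∀ A : Finset ℝ, ∃ B ⊆ A, Nat.log 2 A.card ≤ B.card + 19 ∧ AddDissociated (B : Set ℝ)) ∧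
    (∀ n : ℕ, Nat.log 2 n ≤ f n + 19) := by
  refine ⟨H346R3.E963.const_loss, fun n => ?_⟩
  have : Nat.log 2 n - 19 ≤ f n := by
    apply le_f
    intro A hA
    obtain ⟨B, hB, h1, h2⟩ := H346R3.E963.const_loss A
    rw [hA] at h1
    exact ⟨B, hB, by omega, h2⟩
  omega

end Pool.Agent.Results.MP_2d6ea7_co.ConstantLoss
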